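import Mathlib
import Pool.Agent.Helper31.Fan.Defs
import Pool.Agent.Helper31.Fan.Main

namespace Pool.Agent.Results.MP_0daf67_co.FanSpectral

open Pool.Agent.Helper31.Fan

universe u

theorem result (k : ℕ) (hk : 2 ≤ k) :
    ∃ m₀ : ℕ, ∀ m : ℕ, m₀ ≤ m → ∀ l : ℕ, 1 ≤ l → l ≤ k - 1 →
      (m + k * (k + 1) / 2) ≡ l [MOD k] →
      ∃ n : ℕ, (n : ℚ) = ((m : ℚ) - l) / k + ((k : ℚ) + 3) / 2 ∧
        ∀ (V : Type u) [Fintype V] (G : SimpleGraph V),
          (fan (2 * k + 1)).Free G → G.edgeSet.ncard = m → (∀ v, ∃ w, G.Adj v w) →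
          specRad G ≤ specRad (extGraph n k l) ∧
            (specRad G = specRad (extGraph n k l) → Nonempty (G ≃g extGraph n k l)) :=
  main' k hk

end Pool.Agent.Results.MP_0daf67_co.FanSpectral
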